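import Pool.Agent.MP_eaae5b_nt.Finite

open Finset Filter

namespace Pool.Agent.Results.MP_eaae5b_nt.ManyRepresentations

open Pool.Agent.MP_eaae5b_nt

/-- the representations set -/
private def reps (A : Set ℕ) (n : ℕ) : Set (ℕ × ℕ) := {p | p.1 ∈ A ∧ p.2 ∈ A ∧ p.1 + p.2 = n}

/-- shifted truncation -/
private noncomputable def SN (A : Set ℕ) (N : ℕ) : Finset ℕ :=
  haveI : DecidablePred (fun a => 1 ≤ a ∧ a - 1 ∈ A) := Classical.decPred _
  (range (N + 1)).filter (fun a => 1 ≤ a ∧ a - 1 ∈ A)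

private lemma reps_finite (A : Set ℕ) (n : ℕ) : (reps A n).Finite := by
  apply Set.Finite.subset (Finset.finite_toSet (range (n + 1) ×ˢ range (n + 1)))
  intro p hp
  have h := hp.2.2
  rw [Finset.mem_coe, Finset.mem_product, Finset.mem_range, Finset.mem_range]
  omega

private lemma mem_SN (A : Set ℕ) (N a : ℕ) : a ∈ SN A N ↔ a ≤ N ∧ 1 ≤ a ∧ a - 1 ∈ A := by
  unfold SN
  simp only [Finset.mem_filter, Finset.mem_range]
  constructor
  · rintro ⟨h1, h2⟩
    exact ⟨by omega, h2⟩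
  · rintro ⟨h1, h2⟩
    exact ⟨by omega, h2⟩

private lemma rr_SN_le (A : Set ℕ) (N n : ℕ) : rr (SN A N) (n + 2) ≤ ((reps A n).ncard : ℝ) := by
  unfold rr
  have h : #{p ∈ SN A N ×ˢ SN A N | p.1 + p.2 = n + 2} ≤ (reps A n).ncard := by
    rw [← Set.ncard_coe_finset]
    refine Set.ncard_le_ncard_of_injOn (fun p : ℕ × ℕ => (p.1 - 1, p.2 - 1)) ?_ ?_
      (reps_finite A n)
    · intro p hp
      simp only [Finset.coe_filter, Finset.mem_product, Set.mem_ofPred_eq, mem_SN] at hp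
      refine ⟨hp.1.1.2.2, hp.1.2.2.2, ?_⟩
      simp only
      omega
    · intro p hp p' hp' hpp
      simp only [Finset.coe_filter, Finset.mem_product, Set.mem_ofPred_eq, mem_SN] at hp hp'
      simp only [Prod.mk.injEq] at hpp
      ext <;> omega
  exact_mod_cast h

private lemma le_rr_SN (A : Set ℕ) (N n : ℕ) (hn : n + 2 ≤ N) :
    ((reps A n).ncard : ℝ) ≤ rr (SN A N) (n + 2) := by
  unfold rr
  have h : (reps A n).ncard ≤ #{p ∈ SN A N ×ˢ SN A N | p.1 + p.2 = n + 2} := by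
    rw [← Set.ncard_coe_finset]
    refine Set.ncard_le_ncard_of_injOn (fun p : ℕ × ℕ => (p.1 + 1, p.2 + 1)) ?_ ?_
      (Finset.finite_toSet _)
    · intro p hp
      obtain ⟨h1, h2, h3⟩ := hp
      simp only [Finset.coe_filter, Finset.mem_product, Set.mem_ofPred_eq, mem_SN]
      refine ⟨⟨⟨by omega, by omega, by simpa using h1⟩, ⟨by omega, by omega, by simpa using h2⟩⟩,
        by omega⟩
    · intro p _ p' _ hpp
      simp only [Prod.mk.injEq] at hpp
      ext <;> omega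
  exact_mod_cast h

private lemma rr_SN_small (A : Set ℕ) (N n : ℕ) (hn : n < 2) : rr (SN A N) n = 0 := by
  unfold rr
  have : ({p ∈ SN A N ×ˢ SN A N | p.1 + p.2 = n} : Finset (ℕ × ℕ)) = ∅ := by
    rw [Finset.filter_eq_empty_iff]
    intro p hp
    rw [Finset.mem_product, mem_SN, mem_SN] at hp
    omega
  rw [this]
  simp

/-- limiting argument -/
private theorem no_bounded (A : Set ℕ) (k : ℕ) (K : ℕ) (hkK : k ≤ K)
    (hlow : ∀ᶠ n in atTop, k ≤ (reps A n).ncard)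
    (hup : ∀ᶠ n in atTop, (reps A n).ncard ≤ K) :
    (841:ℝ) * k ≤ (1561 / 2) * (((K:ℝ) - k) / 2) ^ 2 := by
  by_contra hcon
  push Not at hcon
  set Δ2 := (((K:ℝ) - k) / 2) ^ 2 with hΔ2
  set δ := (841:ℝ) * k - (1561 / 2) * Δ2 with hδ
  have hδ0 : 0 < δ := by linarith
  obtain ⟨n₂, hn₂⟩ := eventually_atTop.mp (hlow.and hup)
  -- global bound
  obtain ⟨B, hBdef⟩ : ∃ B : ℕ, ∀ n, (reps A n).ncard ≤ B := by
    refine ⟨K + ∑ n ∈ range n₂, (reps A n).ncard, ?_⟩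
    intro n
    by_cases h : n₂ ≤ n
    · have := (hn₂ n h).2
      omega
    · have := Finset.single_le_sum (f := fun n => (reps A n).ncard) (fun i _ => Nat.zero_le _)
        (Finset.mem_range.mpr (not_le.mp h))
      have h' : (reps A n).ncard ≤ ∑ n ∈ range n₂, (reps A n).ncard := this
      omega
  set n₁ := n₂ + 2 with hn₁
  -- choose m
  obtain ⟨m, hm⟩ : ∃ m : ℕ, 0 < m ∧ (1561 / (m:ℝ)) * (B:ℝ) ^ 2 ≤ δ / 2 := by
    obtain ⟨m, hm⟩ := exists_nat_gt (2 * 1561 * (B:ℝ) ^ 2 / δ)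
    have hm0 : (0:ℝ) < m := lt_of_le_of_lt (by positivity) hm
    refine ⟨m, by exact_mod_cast hm0, ?_⟩
    rw [div_lt_iff₀ hδ0] at hm
    rw [div_mul_eq_mul_div, div_le_div_iff₀ hm0 (by norm_num)]
    linarith
  obtain ⟨hm0, hm⟩ := hm
  -- the constant
  set C : ℝ := 1682 * k * (n₁ + 1) + 72384 * Real.sqrt k
      + (1561 / 2) * (Δ2 + ((B:ℝ) ^ 2 * (n₁ + (m ^ 2 : ℕ)) + 3 * (B:ℝ) ^ 2
          + 2 * (m ^ 2 : ℕ) * (K:ℝ) ^ 2))
        + (1561 / m) * ((B:ℝ) ^ 2 * (1 + Real.log 2))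
        + 8840 * ((m ^ 2 : ℕ) : ℝ) ^ 2 * (B:ℝ) ^ 2 with hC
  have hmain : ∀ N : ℕ, n₁ + 2 * m ^ 2 ≤ N → δ / 2 * Real.log N ≤ C := by
    intro N hN
    have hNpos : 0 < N := by omega
    have hN' : (0:ℝ) < N := by exact_mod_cast hNpos
    have hN1 : (1:ℝ) ≤ N := by exact_mod_cast hNpos
    have hlog : Real.log (2 * N) = Real.log 2 + Real.log N :=
      Real.log_mul (by norm_num) hN'.ne'
    have hlogN : 0 ≤ Real.log N := Real.log_nonneg hN1
    have h := finite_ineq (SN A N) N m n₁ k (K:ℝ) (B:ℝ)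
      (fun a ha => ((mem_SN A N a).mp ha).2.1) (fun a ha => ((mem_SN A N a).mp ha).1)
      hm0 (by omega) hN
      (by
        intro n
        by_cases h : n < 2
        · rw [rr_SN_small A N n h]
          positivity
        · obtain ⟨n', rfl⟩ : ∃ n', n = n' + 2 := ⟨n - 2, by omega⟩
          refine le_trans (rr_SN_le A N n') ?_
          exact_mod_cast hBdef n')
      (by
        intro n h1 h2
        obtain ⟨n', rfl⟩ : ∃ n', n = n' + 2 := ⟨n - 2, by omega⟩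
        have h3 := hn₂ n' (by omega)
        constructor
        · refine le_trans ?_ (le_rr_SN A N n' h2)
          exact_mod_cast h3.1
        · refine le_trans (rr_SN_le A N n') ?_
          exact_mod_cast h3.2)
    rw [hlog] at h
    have h2 : (1561 / (m:ℝ)) * (B:ℝ) ^ 2 * Real.log N ≤ δ / 2 * Real.log N := by
      apply mul_le_mul_of_nonneg_right hm hlogN
    rw [hC]
    nlinarith [h, h2]
  -- contradiction for large N
  have hlim : Tendsto (fun N : ℕ => δ / 2 * Real.log (N:ℝ)) atTop atTop := by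
    apply Tendsto.const_mul_atTop (by positivity)
    exact Real.tendsto_log_atTop.comp tendsto_natCast_atTop_atTop
  obtain ⟨N, hN1, hN2⟩ := ((hlim.eventually_gt_atTop C).and
    (eventually_ge_atTop (n₁ + 2 * m ^ 2))).exists
  have := hmain N hN2
  linarith

theorem result (A : Set ℕ) (k : ℕ)
    (hA : ∀ᶠ n in atTop, k ≤ {p : ℕ × ℕ | p.1 ∈ A ∧ p.2 ∈ A ∧ p.1 + p.2 = n}.ncard) :
    ∃ᶠ n in atTop, (k : ℝ) + 2 * Real.sqrt (1682 / 1561 * k)
      ≤ ({p : ℕ × ℕ | p.1 ∈ A ∧ p.2 ∈ A ∧ p.1 + p.2 = n}.ncard : ℝ) := by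
  intro hcon
  set b : ℝ := (k : ℝ) + 2 * Real.sqrt (1682 / 1561 * k) with hb
  have hup0 : ∀ᶠ n in atTop, ((reps A n).ncard : ℝ) < b := by
    filter_upwards [hcon] with n hn
    exact not_le.mp hn
  have hceil : ∀ᶠ n in atTop, (reps A n).ncard < ⌈b⌉₊ := by
    filter_upwards [hup0] with n hn
    exact Nat.lt_ceil.mpr hn
  obtain ⟨n, hn1, hn2⟩ := (hceil.and hA).exists
  have hkc : k < ⌈b⌉₊ := lt_of_le_of_lt hn2 hn1
  obtain ⟨K, hK⟩ : ∃ K, ⌈b⌉₊ = K + 1 := ⟨⌈b⌉₊ - 1, by omega⟩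
  have hKb : (K:ℝ) < b := Nat.lt_ceil.mp (by omega)
  have h := no_bounded A k K (by omega) hA (by
    filter_upwards [hceil] with n hn
    omega)
  have hkK : (k:ℝ) ≤ K := by
    have : k ≤ K := by omega
    exact_mod_cast this
  -- (K-k)/2 < sqrt(ρ k)
  have h1 : ((K:ℝ) - k) / 2 < Real.sqrt (1682 / 1561 * k) := by
    rw [hb] at hKb
    linarith
  have h2 : (((K:ℝ) - k) / 2) ^ 2 < Real.sqrt (1682 / 1561 * k) ^ 2 := by
    apply pow_lt_pow_left₀ h1 (by linarith) (by norm_num)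
  rw [Real.sq_sqrt (by positivity)] at h2
  linarith

end Pool.Agent.Results.MP_eaae5b_nt.ManyRepresentations
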